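import Mathlib

namespace Pool.Agent.MP_f492a7_an

open scoped BigOperators

/-- Rademacher cotype `q` with constant `K` -/
def HasCotype (Y : Type*) [NormedAddCommGroup Y] (q K : ℝ) : Prop :=
  ∀ (n : ℕ) (y : Fin n → Y), ∑ j, ‖y j‖ ^ q ≤
    K ^ q * 𝔼 σ ∈ Fintype.piFinset fun _ : Fin n => ({-1, 1} : Finset ℤ), ‖∑ j, σ j • y j‖ ^ q

/-- the metric cotype `q` inequality with constant `Γ` for `(n, m)` -/
def MetricCotype (Y : Type*) [NormedAddCommGroup Y] (q Γ : ℝ) (n m : ℕ) [NeZero m] : Prop :=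
  ∀ f : (Fin n → ZMod m) → Y,
    ∑ j, 𝔼 x, ‖f (x + Pi.single j ((m / 2 : ℕ) : ZMod m)) - f x‖ ^ q ≤
      Γ ^ q * (m : ℝ) ^ q *
        𝔼 ε ∈ Fintype.piFinset fun _ : Fin n => ({-1, 0, 1} : Finset ℤ),
          𝔼 x, ‖f (x + fun j => (ε j : ZMod m)) - f x‖ ^ q

end Pool.Agent.MP_f492a7_an
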